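import Pool.Agent.H64.FTM.Taut

/-!
# The standard representations, and diagrams
-/

set_option autoImplicit false

open Matrix Pool.Agent.H2.NL

namespace Pool.Agent.H64.STM

/-- the tensor `t` with the places `j` and `j + 1` exchanged, with the Koszul sign, successively for
all `j` in the list `js` -/
def exch {K : Type} [Field K] {I : Type} (o : I → Bool) (js : List ℕ) (t : List I → K) :
    List I → K :=
  js.foldr (fun j t' => sw o j t') t

/-- the invariant tensor of order two of the standard representation `ℚ ^ b` of the orthogonal group
(`s = false`) or of the symplectic group (`s = true`, `b` even) -/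
def stdOm (s : Bool) (b : ℕ) : Matrix (Fin b) (Fin b) ℚ :=
  Matrix.of fun x y =>
    if s = true then
      (if x.1 + 1 = y.1 ∧ Even x.1 then 1 else if y.1 + 1 = x.1 ∧ Even y.1 then -1 else 0)
    else if x = y then 1 else 0

/-- the linear combination of the tensors which are obtained from `Ω ⊗ … ⊗ Ω` by exchanges; the list
`c` contains the coefficients and the exchanges -/
def comb {K : Type} [Field K] [CharZero K] {I : Type} [Fintype I] (o : I → Bool)
    (Ω : Matrix I I K) (k : ℕ) (c : List (ℚ × List ℕ)) (w : List I) : K :=
  (c.map fun x => (x.1 : K) * exch o x.2 (Pool.Agent.H64.FTM.omk Ω k) w).sum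

end Pool.Agent.H64.STM
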