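import Pool.Agent.H64.FTM.Targets2
import Pool.Agent.H64.STM.Std

/-!
# Relations between tautological classes: definitions
-/

set_option autoImplicit false
set_option linter.unusedSectionVars false

open Matrix Pool.Agent.H64.CC Pool.Agent.H2.NL Pool.Agent.H2.KM Pool.Agent.H64.EV Pool.Agent.H64.FTM

namespace Pool.Agent.H64.STM

section form

variable {K : Type} [Field K] {I : Type} [Fintype I] [DecidableEq I] (F : OForm K I)

/-- the contraction of the first two places -/
def cf {m : ℕ} (f : (Fin (m + 2) → I) → K) (w : Fin m → I) : K :=
  ∑ a, F.c a * f (Fin.cons a (Fin.cons (F.st a) w))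

/-- the tensor power of the class of the diagonal -/
def dg (k : ℕ) : (Fin (2 * k) → I) → K := ev (2 * k) (omk F.ω k)

/-- the iterated contraction of the first two places -/
def itf : (k : ℕ) → ((Fin (2 * k) → I) → K) → K
  | 0, f => f Fin.elim0
  | k + 1, f => itf k (cf F f)

/-- a linear combination of permuted tensors -/
def lc [CharZero K] (o : I → Bool) {m : ℕ} (D : (Fin m → I) → K)
    (c : List (ℚ × Equiv.Perm (Fin m))) (w : Fin m → I) : K :=
  (c.map fun x => (x.1 : K) * ac o x.2 D w).sum

end form

/-- the form of the standard representation -/
def stdF (s : Bool) (b : ℕ) (hb : s = true → Even b) : OForm ℚ (Fin b) where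
  o _ := s
  st x := if h : s = true then (if h' : Even x.1 then ⟨x.1 + 1, by
      obtain ⟨q, hq⟩ := hb h
      obtain ⟨r, hr⟩ := h'
      have := x.2
      omega⟩ else ⟨x.1 - 1, by have := x.2; omega⟩) else x
  c x := if s = true ∧ Even x.1 then -1 else 1
  st_st x := by
    by_cases h : s = true
    · by_cases h' : Even x.1
      · have h1 : ¬ Even (x.1 + 1) := by
          rw [Nat.not_even_iff_odd]
          exact h'.add_one
        simp only [h, h', h1, dite_true, dite_false, add_tsub_cancel_right]
      · have h2 : 1 ≤ x.1 := by
          rcases Nat.eq_zero_or_pos x.1 with h3 | h3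
          · rw [h3] at h'
            exact absurd (Even.zero) h'
          · exact h3
        have h1 : Even (x.1 - 1) := by
          rw [Nat.even_sub h2]
          simp only [h', Nat.not_even_one]
        simp only [h, h', h1, dite_true, dite_false]
        ext
        show x.1 - 1 + 1 = x.1
        omega
    · simp only [h, dite_false]
      rfl
  o_st _ := rfl
  c_ne x := by
    split_ifs
    · exact neg_ne_zero.2 one_ne_zero
    · exact one_ne_zero
  c_st x := by
    by_cases h : s = true
    · by_cases h' : Even x.1
      · have h1 : ¬ Even (x.1 + 1) := by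
          rw [Nat.not_even_iff_odd]
          exact h'.add_one
        simp [h, h', h1, sg]
      · have h2 : 1 ≤ x.1 := by
          rcases Nat.eq_zero_or_pos x.1 with h3 | h3
          · rw [h3] at h'
            exact absurd (Even.zero) h'
          · exact h3
        have h1 : Even (x.1 - 1) := by
          rw [Nat.even_sub h2]
          simp only [h', Nat.not_even_one]
        simp [h, h', h1, sg]
    · simp [h, sg]

end Pool.Agent.H64.STM
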