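import Pool.Agent.H64.STM.Targets
import Pool.Agent.H64.FTM.CoreBasis

/-!
# The second fundamental theorem for the numerical motive: the final assembly
-/

set_option autoImplicit false

open Matrix Pool.Agent.H64.CC Pool.Agent.H2.NL Pool.Agent.H2.KM

namespace Pool.Agent.H64.STM

open Pool.Agent.H64.EV Pool.Agent.H64.FTM

variable {K : Type} [Field K] [CharZero K] (W : Weil K) (hW : W.Theory)

include hW in
/-- **The relations.** A combination of diagrams of `R` is numerically trivial if and only if it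
vanishes in the standard representation of the symplectic or orthogonal group. -/
theorem relations_of (hSTX : T_STX) (hSFB : T_SFB) (hSFA : T_SFA) (hCMB : T_CMB) (hWNC : T_WNC)
    (hWCB : T_WCB) {V : W.Var 0} {L : W.Hom V V} (hL : L ∈ W.Lef V) {r m : ℕ} {T : W.Var m}
    (S : W.Deligne V L r T) {ε : W.Hom T T} {b : ℕ} (R : Weil.Remainder S ε b) (k : ℕ)
    (c : List (ℚ × List ℕ)) (hc : ∀ x ∈ c, ∀ j ∈ x.2, j + 2 ≤ 2 * k) :
    W.NumTrivial (S.powers.pow k)
      (S.powers.oper k (comb (W.par T) ((1 - ε) * S.powers.form⁻¹) k c)) ↔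
    ∀ w : List (Fin b), w.length = 2 * k →
      comb (fun _ => decide (Odd (W.dim T))) (stdOm (decide (Odd (W.dim T))) b) k c w = 0 := by
  obtain ⟨n, n', n'', F, G, j, i, z, hB, hz, hsd, hb, hFT⟩ := core_basis W hW hL S R
  obtain ⟨h1, h2, h3, h4⟩ := hSTX (decide (Odd (W.dim T))) b hb
  obtain ⟨c', hc'⟩ := hCMB k c hc
  have e1 := hWCB K W m T S.powers ε _ _ F G j i hB k c
  rw [← e1, hWNC K W m T S.powers ε _ _ F G j i hB k, hc',
    hSFA K _ _ F G _ hB.mcal z b hFT k c',
    hSFB K _ _ F (stdF (decide (Odd (W.dim T))) b hb) (decide (Odd (W.dim T))) h3 h4 (by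
      rw [hsd, h2]
      split_ifs <;> push_cast <;> rfl) k c']
  have e2 := hc' ℚ (Fin b) (stdF (decide (Odd (W.dim T))) b hb).o
    (stdF (decide (Odd (W.dim T))) b hb).ω
  constructor
  · intro h w hw
    have e3 := congrFun e2 fun p : Fin (2 * k) => w.get (p.cast hw.symm)
    have e4 : List.ofFn (fun p : Fin (2 * k) => w.get (p.cast hw.symm)) = w := by
      refine List.ext_getElem (by simp [hw]) fun q h5 h6 => ?_
      simp
    unfold ev at e3
    rw [e4] at e3
    rw [← h1]
    exact e3.trans (h _)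
  · intro h w
    have e3 := congrFun e2 w
    refine e3.symm.trans ?_
    show comb (stdF (decide (Odd (W.dim T))) b hb).o (stdF (decide (Odd (W.dim T))) b hb).ω k c
      (List.ofFn w) = 0
    rw [h1]
    exact h (List.ofFn w) (by simp)

end Pool.Agent.H64.STM
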