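import Pool.Agent.H64.STM.Targets
import Pool.Agent.H64.FTM.Rows
import Pool.Agent.H10.STM.CDI
import Pool.Agent.H17.STM.CAC
import Pool.Agent.H20.STM.RES
import Pool.Agent.H20.STM.WCB
import Pool.Agent.H21.STM.ALT
import Pool.Agent.H35.STM.SFA
import Pool.Agent.H35.STM.WNC
import Pool.Agent.H38.STM.CMB
import Pool.Agent.H38.STM.HYP
import Pool.Agent.H64.STMR.PMT
import Pool.Agent.H64.STMR.SFB
import Pool.Agent.H64.STMR.STX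
import Pool.Agent.H73.STM.EVC
import Pool.Agent.H81.STM.STN
import Pool.Agent.H89.STM.CBS

/-!
# The rows, composed
-/

set_option autoImplicit false

open Matrix Pool.Agent.H64.CC Pool.Agent.H2.NL Pool.Agent.H2.KM Pool.Agent.H64.EV Pool.Agent.H64.FTM Pool.Agent.H64.STM

namespace Pool.Agent.H64.STM

theorem s_EVC : T_EVC :=
  Pool.Agent.H73.STM.pf_EVC

theorem s_CAC : T_CAC :=
  Pool.Agent.H17.STM.pf_CAC

theorem s_HYP : T_HYP :=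
  Pool.Agent.H38.STM.pf_HYP Pool.Agent.H64.FTM.t_KAP Pool.Agent.H64.FTM.t_ACT

theorem s_CBS : T_CBS :=
  Pool.Agent.H89.STM.pf_CBS Pool.Agent.H64.FTM.t_KAP

theorem s_CDI : T_CDI :=
  Pool.Agent.H10.STM.pf_CDI Pool.Agent.H64.FTM.t_ACT s_CAC s_HYP s_CBS

theorem s_ALT : T_ALT :=
  Pool.Agent.H21.STM.pf_ALT Pool.Agent.H64.FTM.t_ACT Pool.Agent.H64.FTM.t_PRF s_EVC s_CDI

theorem s_CMB : T_CMB :=
  Pool.Agent.H38.STM.pf_CMB Pool.Agent.H64.FTM.t_ACT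

theorem s_PMT : T_PMT :=
  Pool.Agent.H64.STMR.pf_PMT Pool.Agent.H64.FTM.t_ACT Pool.Agent.H64.FTM.t_PRF s_CDI s_EVC

theorem s_RES : T_RES :=
  Pool.Agent.H20.STM.pf_RES

theorem s_SFA : T_SFA :=
  Pool.Agent.H35.STM.pf_SFA Pool.Agent.H64.FTM.t_AFA Pool.Agent.H64.FTM.t_TYB Pool.Agent.H64.FTM.t_CUT Pool.Agent.H64.FTM.t_BRM s_EVC s_ALT s_RES

theorem s_STN : T_STN :=
  Pool.Agent.H81.STM.pf_STN Pool.Agent.H64.FTM.t_KAP Pool.Agent.H64.FTM.t_ACT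

theorem s_SFB : T_SFB :=
  Pool.Agent.H64.STMR.pf_SFB s_PMT s_STN

theorem s_STX : T_STX :=
  Pool.Agent.H64.STMR.pf_STX

theorem s_WCB : T_WCB :=
  Pool.Agent.H20.STM.pf_WCB Pool.Agent.H64.NLW.r_PFA

theorem s_WNC : T_WNC :=
  Pool.Agent.H35.STM.pf_WNC Pool.Agent.H64.FTM.t_PRF Pool.Agent.H64.EV.e_OTP Pool.Agent.H64.NLW.r_OPJ Pool.Agent.H64.NLW.r_PFB

end Pool.Agent.H64.STM
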