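import Pool.Agent.H64.STM.Defs

/-!
# Targets: relations between tautological classes
-/

set_option autoImplicit false

open Matrix Pool.Agent.H64.CC Pool.Agent.H2.NL Pool.Agent.H2.KM Pool.Agent.H64.EV Pool.Agent.H64.FTM

namespace Pool.Agent.H64.STM

/-- STX: the standard form. -/
def T_STX : Prop := ∀ (s : Bool) (b : ℕ) (hb : s = true → Even b),
  (stdF s b hb).ω = stdOm s b ∧ (stdF s b hb).sd = (if s = true then -(b : ℚ) else (b : ℚ)) ∧
  (∀ a, (stdF s b hb).o a = s) ∧ ∀ a, (stdF s b hb).c a * (stdF s b hb).c a = 1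

/-- EVC: contractions, and symmetries of the pairing. -/
def T_EVC : Prop := ∀ (K : Type) [Field K] (I : Type) [Fintype I] [DecidableEq I] (F : OForm K I),
  (∀ (m : ℕ) (t : List I → K), ev m (con F.η 0 t) = cf F (ev (m + 2) t)) ∧
  (∀ (k : ℕ) (f : (Fin (2 * k) → I) → K), pr F f (rvf (dg F k)) = itf F k f) ∧
  (∀ (m : ℕ) (f g : (Fin m → I) → K), pr F (rvf f) (rvf g) = pr F f g) ∧
  (∀ (m : ℕ) (f g : (Fin m → I) → K), (∀ w, f w ≠ 0 → Even (odds F.o (List.ofFn w))) →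
    pr F f g = pr F g f) ∧
  (∀ (k : ℕ) (σ : Equiv.Perm (Fin (2 * k))) (w : Fin (2 * k) → I), ac F.o σ (dg F k) w ≠ 0 →
    Even (odds F.o (List.ofFn w)))

/-- CAC: contractions and permutations of the other places. -/
def T_CAC : Prop := ∀ (m : ℕ) (σ : Equiv.Perm (Fin (m + 2))), σ 0 = 0 → σ 1 = 1 →
  ∃ π : Equiv.Perm (Fin m), ∀ (K : Type) [Field K] (I : Type) [Fintype I] [DecidableEq I]
    (F : OForm K I) (f : (Fin (m + 2) → I) → K), cf F (ac F.o σ f) = ac F.o π (cf F f)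

/-- HYP: symmetries of the diagram `dg`. -/
def T_HYP : Prop := ∀ k : ℕ,
  (∀ p : Fin (2 * (k + 1)), ∃ h : Equiv.Perm (Fin (2 * (k + 1))), (∀ i, i.1 = 0 → h i = p) ∧
    ∀ (K : Type) [Field K] (I : Type) [Fintype I] [DecidableEq I] (F : OForm K I),
      ac F.o h (dg F (k + 1)) = dg F (k + 1)) ∧
  (∀ p : Fin (2 * (k + 1)), 2 ≤ p.1 → ∃ h : Equiv.Perm (Fin (2 * (k + 1))),
    (∀ i, i.1 < 2 → h i = i) ∧ (∀ i, i.1 = 2 → h i = p) ∧
    ∀ (K : Type) [Field K] (I : Type) [Fintype I] [DecidableEq I] (F : OForm K I),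
      ac F.o h (dg F (k + 1)) = dg F (k + 1))

/-- CBS: the contractions of the diagram `dg`. -/
def T_CBS : Prop := ∀ (K : Type) [Field K] (I : Type) [Fintype I] [DecidableEq I] (F : OForm K I)
  (k : ℕ), (∀ w, cf F (dg F (k + 1)) w = F.sd * dg F k w) ∧
  ∀ σ : Equiv.Perm (Fin (2 * (k + 1))), (∀ i, i.1 = 1 → (σ i).1 = 2) → (∀ i, i.1 = 2 → (σ i).1 = 1) →
    (∀ i, i.1 ≠ 1 → i.1 ≠ 2 → σ i = i) → 1 ≤ k → ∀ w, cf F (ac F.o σ (dg F (k + 1))) w = dg F k w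

/-- CDI: the contractions of diagrams are multiples of diagrams. -/
def T_CDI : Prop := ∀ (k : ℕ) (σ : Equiv.Perm (Fin (2 * (k + 1)))),
  ∃ (π : Equiv.Perm (Fin (2 * k))) (e : ℕ), ∀ (K : Type) [Field K] (I : Type) [Fintype I]
    [DecidableEq I] (F : OForm K I) (w : Fin (2 * k) → I),
    cf F (ac F.o σ (dg F (k + 1))) w = F.sd ^ e * ac F.o π (dg F k) w

/-- PMT: the pairings of diagrams are powers of the super dimension. -/
def T_PMT : Prop := ∀ (k : ℕ) (σ τ : Equiv.Perm (Fin (2 * k))), ∃ e : ℕ, ∀ (K : Type) [Field K]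
  (I : Type) [Fintype I] [DecidableEq I] (F : OForm K I),
  pr F (ac F.o σ (dg F k)) (rvf (ac F.o τ (dg F k))) = F.sd ^ e

/-- STN: positivity for the standard forms. -/
def T_STN : Prop := ∀ (I : Type) [Fintype I] [DecidableEq I] (F : OForm ℚ I) (s : Bool),
  (∀ a, F.o a = s) → (∀ a, F.c a * F.c a = 1) → ∀ (k : ℕ)
  (c : List (ℚ × Equiv.Perm (Fin (2 * k)))),
  (∀ τ : Equiv.Perm (Fin (2 * k)),
    pr F (lc F.o (dg F k) c) (rvf (ac F.o τ (dg F k))) = 0) → ∀ w, lc F.o (dg F k) c w = 0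

/-- SFB: the relations only depend on the super dimension. -/
def T_SFB : Prop := ∀ (K : Type) [Field K] [CharZero K] (I I' : Type) [Fintype I] [DecidableEq I]
  [Fintype I'] [DecidableEq I'] (F : OForm K I) (F' : OForm ℚ I') (s : Bool),
  (∀ a, F'.o a = s) → (∀ a, F'.c a * F'.c a = 1) → F.sd = ((F'.sd : ℚ) : K) → ∀ (k : ℕ)
  (c : List (ℚ × Equiv.Perm (Fin (2 * k)))),
  (∀ τ : Equiv.Perm (Fin (2 * k)), pr F (lc F.o (dg F k) c) (rvf (ac F.o τ (dg F k))) = 0) ↔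
    ∀ w, lc F'.o (dg F' k) c w = 0

/-- ALT: diagrams are orthogonal to products of diagrams and an alternating tensor. -/
def T_ALT : Prop := ∀ (K : Type) [Field K] [CharZero K] (I : Type) [Fintype I] [DecidableEq I]
  (F : OForm K I) (k i b : ℕ) (t : List I → K), 2 ≤ b → 2 * i + b = 2 * k →
  (∀ j, j + 2 ≤ b → ∀ w, w.length = b → sw F.o j t w = -t w) →
  ∀ σ τ : Equiv.Perm (Fin (2 * k)), pr F (ac F.o σ (dg F k))
    (rvf (ac F.o τ (ev (2 * k) (tp (2 * i) (omk F.ω i) t)))) = 0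

/-- RES: restriction to the words of the factor with the basis `J`. -/
def T_RES : Prop := ∀ (K : Type) [Field K] (J E : Type) [Fintype J] [DecidableEq J] [Fintype E]
  [DecidableEq E] (F : OForm K J) (G : OForm K E),
  (∀ (m : ℕ) (σ : Equiv.Perm (Fin m)) (f : (Fin m → J ⊕ E) → K) (w : Fin m → J),
    ac (osum F G).o σ f (fun i => Sum.inl (w i)) =
      ac F.o σ (fun v => f fun i => Sum.inl (v i)) w) ∧
  (∀ (m : ℕ) (f g : (Fin m → J ⊕ E) → K), Tyf m f → pr (osum F G) f g =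
    pr F (fun w => f fun i => Sum.inl (w i)) fun w => g fun i => Sum.inl (w i)) ∧
  (∀ (k i : ℕ) (t : List (J ⊕ E) → K) (w : Fin (2 * k) → J), i ≤ k →
    ev (2 * k) (tp (2 * i) (omk (Om F E) i) t) (fun i => Sum.inl (w i)) =
      ev (2 * k) (tp (2 * i) (omk F.ω i) fun v => t (v.map Sum.inl)) w) ∧
  (∀ k : ℕ, Tyf (2 * k) (ev (2 * k) (omk (Om F E) k))) ∧
  ∀ (k : ℕ) (w : Fin (2 * k) → J),
    ev (2 * k) (omk (Om F E) k) (fun i => Sum.inl (w i)) = dg F k w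

/-- SFA: numerically trivial combinations of diagrams. -/
def T_SFA : Prop := ∀ (K : Type) [Field K] [CharZero K] (J E : Type) [Fintype J] [DecidableEq J]
  [Fintype E] [DecidableEq E] (F : OForm K J) (G : OForm K E)
  (A : ℕ → Submodule ℚ (List (J ⊕ E) → K)), MCal F G A → ∀ (z : K) (b : ℕ),
  (∀ k a : ℕ, a ≤ 2 * k → FTa F G A z b k a) → ∀ (k : ℕ) (c : List (ℚ × Equiv.Perm (Fin (2 * k)))),
  (∀ x ∈ Af A k,
    pr (osum F G) x (rvf (lc (osum F G).o (ev (2 * k) (omk (Om F E) k)) c)) = 0) ↔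
  ∀ τ : Equiv.Perm (Fin (2 * k)), pr F (lc F.o (dg F k) c) (rvf (ac F.o τ (dg F k))) = 0

/-- CMB: exchanges and permutations. -/
def T_CMB : Prop := ∀ (k : ℕ) (c : List (ℚ × List ℕ)), (∀ x ∈ c, ∀ j ∈ x.2, j + 2 ≤ 2 * k) →
  ∃ c' : List (ℚ × Equiv.Perm (Fin (2 * k))), ∀ (K : Type) [Field K] [CharZero K] (I : Type)
    [Fintype I] [DecidableEq I] (o : I → Bool) (Ω : Matrix I I K),
    ev (2 * k) (comb o Ω k c) = lc o (ev (2 * k) (omk Ω k)) c'

/-- WNC: numerically trivial correspondences. -/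
def T_WNC : Prop := ∀ (K : Type) [Field K] [CharZero K] (W : Weil K) (m : ℕ) (T : W.Var m)
  (P : W.Powers T) (ε : W.Hom T T) (J E : Type) [Fintype J] [DecidableEq J] [Fintype E]
  [DecidableEq E] (F : OForm K J) (G : OForm K E) (j : Matrix (Fin (W.rk T)) (J ⊕ E) K)
  (i : Matrix (J ⊕ E) (Fin (W.rk T)) K), Basis W P ε F G j i → ∀ (k : ℕ) (t : List (J ⊕ E) → K),
  W.NumTrivial (P.pow k) (P.oper k (pf j t)) ↔
    ∀ x ∈ Af (pull j P.toPowerData.classes) k, pr (osum F G) x (rvf (ev (2 * k) t)) = 0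

/-- WCB: the class of a combination of diagrams. -/
def T_WCB : Prop := ∀ (K : Type) [Field K] [CharZero K] (W : Weil K) (m : ℕ) (T : W.Var m)
  (P : W.Powers T) (ε : W.Hom T T) (J E : Type) [Fintype J] [DecidableEq J] [Fintype E]
  [DecidableEq E] (F : OForm K J) (G : OForm K E) (j : Matrix (Fin (W.rk T)) (J ⊕ E) K)
  (i : Matrix (J ⊕ E) (Fin (W.rk T)) K), Basis W P ε F G j i → ∀ (k : ℕ)
  (c : List (ℚ × List ℕ)), P.oper k (pf j (comb (osum F G).o (Om F E) k c)) =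
    P.oper k (comb (W.par T) ((1 - ε) * P.form⁻¹) k c)

end Pool.Agent.H64.STM
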