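import Pool.Agent.H64.STM.Rows
import Pool.Agent.H64.STM.Final

/-!
# The second fundamental theorem for the numerical motive of a generic complete intersection
-/

set_option autoImplicit false

open Matrix Pool.Agent.H64.CC Pool.Agent.H2.NL

namespace Pool.Agent.H64.STM

variable {K : Type} [Field K] [CharZero K] (W : Weil K) (hW : W.Theory)

include hW in
/-- **The relations.** A combination of diagrams of `R` is numerically trivial if and only if it
vanishes in the standard representation of the symplectic or orthogonal group. -/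
theorem relations {V : W.Var 0} {L : W.Hom V V} (hL : L ∈ W.Lef V) {r m : ℕ} {T : W.Var m}
    (S : W.Deligne V L r T) {ε : W.Hom T T} {b : ℕ} (R : Weil.Remainder S ε b) (k : ℕ)
    (c : List (ℚ × List ℕ)) (hc : ∀ x ∈ c, ∀ j ∈ x.2, j + 2 ≤ 2 * k) :
    W.NumTrivial (S.powers.pow k)
      (S.powers.oper k (comb (W.par T) ((1 - ε) * S.powers.form⁻¹) k c)) ↔
    ∀ w : List (Fin b), w.length = 2 * k →
      comb (fun _ => decide (Odd (W.dim T))) (stdOm (decide (Odd (W.dim T))) b) k c w = 0 :=
  relations_of W hW s_STX s_SFB s_SFA s_CMB s_WNC s_WCB hL S R k c hc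

end Pool.Agent.H64.STM
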